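import Pool.Agent.H29.EC.Marg

/-!
# The clock of the scaling limit of random walk on planar quadrangulations

Let `Q k` be random planar quadrangulations with `N k → ∞` faces, of arbitrary laws (for example
uniform), and let simple random walk start from a uniform dart. Suppose that the metric graph with
edges of length `a k → 0`, the measure which gives mass `b k` to each vertex, `b k * N k → m > 0`,
and the walk at speed `t k` converge in law in the Gromov-Hausdorff-Prokhorov-uniform topology to
`(X, μ, η)`, where `X` is a random topological sphere and `η` is a time change of Brownian motion: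
`η (A s) = h (B s)` for a planar Brownian motion `B`, *any* random homeomorphism `h` and *any*
random clock `A`. Then the clock is the one of the measure `μ`: the limit is stationary and
reversible, at each time its position has law `μ / m`, and its time averages converge to `μ / m`.
In particular, if the curve is Liouville Brownian motion for some measure `κ`, then `κ` is
proportional to `μ`.

* `Meet`, `Block`, `Follow`: two planar curves meet; almost surely planar Brownian motion comes
  close to following every straight line, so its trace separates; `Trace`: a path in the discrete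
  map which avoids the walk is short;
* `Markov`, `Erg`: an ergodic theorem for simple random walk on a random map, with a rate: two
  walks on the same map meet, and the conditional expectation of a long time average is a
  martingale up to a small error, so the time averages of two independent walks are close. No
  spectral gap and no bound on degrees or on resistances is used;
* `Deg`: for planar quadrangulations the degree measure and the counting measure are close;
* `Disc`, `Good`, `Lim`, `Final`: the walk equidistributes with respect to the counting measure;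
* `Func`, `Limit`, `Weak`, `Main`: passage to the limit;
* `Sym`, `Rp`, `StatL`, `Marg`: stationarity, reversibility and the one-point law of the limit.
-/

set_option autoImplicit false

open scoped NNReal ENNReal Topology
open MeasureTheory ProbabilityTheory Filter Set

open Pool.Agent.Helper363_LBM Pool.Agent.H29.EC

/-- Suppose that simple random walks from uniform darts on random planar quadrangulations with
`N k → ∞` faces, at speed `t k`, together with the metric graph (edges of length `a k → 0`) and
`b k` times the counting measure on vertices (`b k * N k → m > 0`), converge in law in the GHPU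
topology to a random topological sphere `Z` with measure `μ` and a time-changed planar Brownian
motion `η`. Then the law of `Z` is stationary and reversible with one-point law `μ / m`, and
ergodic; more precisely, for all bounded uniformly continuous functions `F` of a space with a
measure and a curve:

* (stationarity) the time shift by `s` does not change the expectation of `F`;
* (reversibility) time reversal at `T` does not change the expectation of `F` of the curve up to
  time `T`;
* (one-point law) the expectation of `F` of the space with the marked point `η s` is the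
  expectation of the average over `x`, for the measure `μ / m`, of `F` of the space with the
  marked point `x`;
* (ergodicity) for every `δ > 0`, if `T` is large, then up to probability `δ` the measures `μ` and
  `m` times the occupation measure of `η` up to time `T` satisfy the Lévy-Prokhorov inequality
  with `δ`; the same holds for the walk on the map, for large `k`; there are deterministic times
  `T j → ∞` such that almost surely the time averages up to `T j` converge weakly to `μ / m`;
* (uniqueness) almost surely, if the time averages of `η` converge to a measure `κ`, then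
  `μ = m κ`. -/
theorem Pool.Agent.Results.MP_7a6434d8_pr.ClockIdentified.result
    (N : ℕ → ℕ) (hN : Tendsto N atTop atTop) (a b t : ℕ → ℝ≥0) (ha : Tendsto a atTop (𝓝 0))
    {m : ℝ} (hm : 0 < m) (hb : Tendsto (fun k => (b k * N k : ℝ)) atTop (𝓝 m))
    -- the walks on the maps
    {Ωs : ℕ → Type} [∀ k, MeasurableSpace (Ωs k)] (Ps : ∀ k, Measure (Ωs k))
    [∀ k, IsProbabilityMeasure (Ps k)] (Q : ∀ k, Ωs k → Quad (N k))
    (e : ∀ k, Ωs k → ℕ → Fin (4 * N k)) (hS : ∀ k, IsSRW (Ps k) (Q k) (e k))
    (hU : ∀ k, UStart (Ps k) (Q k) (e k))
    -- the limit
    {Ω : Type} [MeasurableSpace Ω] (P : Measure Ω) [IsProbabilityMeasure P] (Z : Ω → MMC)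
    (hZ : @Measurable Ω MMC _ (borel MMC) Z) (hlim : IsBrownianSphere P Z)
    (hconv : ConvergesInLaw Ps (fun k ω => walkSpace (Q k ω) (a k) (b k) (t k) (e k ω)
      ((hS k).path ω)) P Z) :
    -- stationarity, reversibility and the one-point law
    (∀ F : MMC → ℝ, UC F →
      (∀ s : ℝ≥0, ∫ ω, F (rp (shiftMap s) (Z ω)) ∂P = ∫ ω, F (Z ω) ∂P) ∧
      (∀ T : ℝ≥0, ∫ ω, F (rp (revMap T) (Z ω)) ∂P = ∫ ω, F (rp (stopMap T) (Z ω)) ∂P) ∧
      ∀ s : ℝ≥0, ∫ ω, F (pt (Z ω) ((Z ω).η s)) ∂P =
        ∫ ω, mInt (Z ω) (Z ω).μ (fun x => F (pt (Z ω) x)) / m ∂P) ∧
    -- ergodicity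
    (∀ δ : ℝ, 0 < δ → ∃ T0 : ℝ, 0 < T0 ∧ ∀ T ≥ T0,
      P {ω | ¬ Equi m T δ (Z ω)} ≤ ENNReal.ofReal δ ∧
      ∀ᶠ k in atTop, Ps k {ω | ¬ Equi m T δ (walkSpace (Q k ω) (a k) (b k) (t k) (e k ω)
        ((hS k).path ω))} ≤ ENNReal.ofReal δ) ∧
    (∃ T : ℕ → ℝ, Tendsto T atTop atTop ∧ ∀ᵐ ω ∂P, ∀ g : (Z ω).X → ℝ, Continuous g →
      Tendsto (fun j => timeAvg (Z ω) (T j) g) atTop (𝓝 (mInt (Z ω) (Z ω).μ g / m))) ∧
    -- uniqueness
    ∀ᵐ ω ∂P, (Z ω).μ univ = ENNReal.ofReal m ∧ ∀ κ : @Measure (Z ω).X (borel (Z ω).X),
      (∀ g : (Z ω).X → ℝ, Continuous g →
        Tendsto (fun T : ℝ => timeAvg (Z ω) T g) atTop (𝓝 (mInt (Z ω) κ g))) →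
      (Z ω).μ = ENNReal.ofReal m • κ := by
  refine ⟨fun F hF => ⟨lim_stat hS hU ha hZ hconv hF, lim_rev hS hU ha hconv hF,
    one_point hS hU ha hZ hconv hlim hN hm hb hF⟩, fun δ hδ => ?_,
    subseq hS ha hZ hlim hconv hU hN hm hb, ?_⟩
  · obtain ⟨T1, h1, h2⟩ := limit_equi hS ha hZ hlim hconv hU hN hm hb hδ
    obtain ⟨T2, h3, h4⟩ := disc_equi hS ha hZ hlim hconv hU hN hm hb hδ
    exact ⟨max T1 T2, lt_max_of_lt_left h1, fun T hT =>
      ⟨h2 T ((le_max_left _ _).trans hT), h4 T ((le_max_right _ _).trans hT)⟩⟩
  · filter_upwards [limit_mass hS ha hZ hconv hN hb,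
      ident hS ha hZ hlim hconv hU hN hm hb] with ω h1 h2
    exact ⟨h1, h2⟩

/-- Uniform rooted quadrangulations satisfy the hypothesis on the starting point. -/
theorem Pool.Agent.Results.MP_7a6434d8_pr.ClockIdentified.uniform {Ω : Type} [MeasurableSpace Ω]
    {P : Measure Ω} [IsProbabilityMeasure P] {N : ℕ} {Q : Ω → Quad N}
    {e : Ω → ℕ → Fin (4 * N)} (hS : IsSRW P Q e) (hU : Pool.Agent.H29.QD.UniformRooted P Q e) :
    UStart P Q e := ustart_of_uniform hS hU
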