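import Pool.Agent.H29.XT.Final

/-!
# The exact order of the time scale of random walk on uniform planar maps

Let `M k` be uniform rooted planar maps with `N k` edges. If stationary simple random walk on
`M k`, run at speed `t k`, converges in law in the Gromov-Hausdorff-Prokhorov-uniform topology to a
time-changed Brownian motion on a random sphere, then `c * N k ≤ t k ≤ C * N k` for large `k`. So
the time scale is linear in the number of edges, without logarithms. There is no hypothesis on the
degrees.

This is a special case of a general result. Let `M k` be random planar maps with `N k` edges, of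
arbitrary laws. If random walk on `M k` at speed `t k` and random walk on the dual map `M* k` at
speed `t' k` both converge to time-changed Brownian motions on random spheres, then
`c * N k ^ 2 ≤ t k * t' k ≤ C * N k ^ 2` for large `k`.

A planar map with `N` edges and its dual are given by a quadrangulation with `N` faces (Tutte's
bijection): its vertices of one colour and one diagonal of every face form the map, its vertices of
the other colour and the other diagonals form the dual. The maps are seen as subsets of the metric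
graph of the quadrangulation, whose distances define the metric.

The lower bound is proved in `Pool.Agent.H29.DT` (see `DT/Final.lean`): the limit of the first walk
crosses four strips around an annulus, so the conductances of the map across the four strips are
bounded from below, hence the conductance of the dual map across the annulus is bounded from above,
and the passage probabilities are bounded by the conductances.

The upper bound is proved in `Pool.Agent.H29.XT`:
* `MWalk`, `MProb`: if the walk needs more than `K` steps for a small displacement, then averages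
  over `K` steps of Lipschitz functions have energy `O(N / K)` and are close to the functions
  along the walk;
* `MArea`, `Det`: if four paths form a closed curve, the function `f` on the map is `1` on the
  first path and `0` on the third, and the function `g` on the dual map is `1` on the second and
  `0` on the fourth, then the product of the energies of `f` and `g` is at least `1`. This holds for
  all planar maps, with no bound on the degrees;
* `Two`: the limit of the first walk contains two paths between two points which are disjoint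
  except for neighbourhoods of these points;
* `Loop`, `Loop2`, `Loop3`: the limit of the second walk contains small loops around all points;
* `Join`: two sides made of the first walk and two loops of the second walk form a closed curve, so
  `K * K' ≤ (32 * N) ^ 2`;
* `Up`, `Final`: the choice of the constants and the passage from the limits to the discrete walks.
-/

set_option autoImplicit false

open scoped NNReal ENNReal Topology
open MeasureTheory ProbabilityTheory Filter Set

open Pool.Agent.Helper363_LBM Pool.Agent.H29.DT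

namespace Pool.Agent.Results.MP_7a6434d8_pr.ExactTimeScale

/-- The walks `δ k` on random planar maps converge, when they are run at speed `t k` on the metric
graph of the quadrangulation `Q k` with edges of length `a k`, in law in the GHPU topology to a
random sphere with a time-changed Brownian motion. (The measures of the spaces are the numbers of
vertices of `Q k` times `b k`, they are irrelevant for the result.) -/
def ConvergesToBM {N : ℕ → ℕ} (a t : ℕ → ℝ≥0) {Ωs : ℕ → Type} [∀ k, MeasurableSpace (Ωs k)]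
    (Ps : ∀ k, Measure (Ωs k)) (Q : ∀ k, Ωs k → Quad (N k))
    (δ : ∀ k, Ωs k → ℕ → Fin (4 * N k)) (hW : ∀ k, IsMapWalk (Ps k) (Q k) (δ k)) : Prop :=
  ∃ (b : ℕ → ℝ≥0) (Ω : Type) (_ : MeasurableSpace Ω) (P : Measure Ω) (_ : IsProbabilityMeasure P)
    (Z : Ω → MMC), @Measurable Ω MMC _ (borel MMC) Z ∧ IsBrownianSphere P Z ∧
    ConvergesInLaw Ps (fun k ω => walkSpace (Q k ω) (a k) (b k) (t k)
      (zig (Q k ω) (δ k ω)) (zig_path ((hW k).path ω))) P Z

/-- The random planar map of the walk `δ` is uniform: all pairs of a quadrangulation and a dart,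
that is, all rooted planar maps, have the same probability. -/
def Uniform {N : ℕ} {Ω : Type} [MeasurableSpace Ω] (P : Measure Ω) (Q : Ω → Quad N)
    (δ : Ω → ℕ → Fin (4 * N)) : Prop :=
  ∀ (q q' : Quad N) (d d' : Fin (4 * N)),
    P {ω | Q ω = q ∧ δ ω 0 = d} = P {ω | Q ω = q' ∧ δ ω 0 = d'}

/-- the general case -/
theorem general (N : ℕ → ℕ) (a : ℕ → ℝ≥0) (ha : Tendsto a atTop (𝓝 0))
    -- the walk on the map
    {Ωs : ℕ → Type} [∀ k, MeasurableSpace (Ωs k)] (Ps : ∀ k, Measure (Ωs k))
    [∀ k, IsProbabilityMeasure (Ps k)] (Q : ∀ k, Ωs k → Quad (N k))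
    (δ : ∀ k, Ωs k → ℕ → Fin (4 * N k)) (hW : ∀ k, IsMapWalk (Ps k) (Q k) (δ k))
    -- the walk on the dual map
    {Ωs' : ℕ → Type} [∀ k, MeasurableSpace (Ωs' k)] (Ps' : ∀ k, Measure (Ωs' k))
    [∀ k, IsProbabilityMeasure (Ps' k)] (Q' : ∀ k, Ωs' k → Quad (N k))
    (δ' : ∀ k, Ωs' k → ℕ → Fin (4 * N k)) (hW' : ∀ k, IsMapWalk (Ps' k) (Q' k) (δ' k))
    (hdual : ∀ k, IsDual (Ps k) (Q k) (δ k) (Ps' k) (Q' k) (δ' k))
    -- both walks converge
    (t t' : ℕ → ℝ≥0) (hconv : ConvergesToBM a t Ps Q δ hW)
    (hconv' : ConvergesToBM a t' Ps' Q' δ' hW') :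
    ∃ c C : ℝ, 0 < c ∧ ∀ᶠ k in atTop,
      c * (N k : ℝ) ^ 2 ≤ t k * t' k ∧ t k * t' k ≤ C * (N k : ℝ) ^ 2 := by
  obtain ⟨b, Ω, _, P, _, Z, hZ, hlim, hc⟩ := hconv
  obtain ⟨b', Ω', _, P', _, Z', hZ', hlim', hc'⟩ := hconv'
  obtain ⟨c, hc0, h1⟩ := main hW hW' hdual ha hZ hlim hc hZ' hlim' hc'
  obtain ⟨C, h2⟩ := Pool.Agent.H29.XT.upper hW hW' hdual ha hZ hlim hc hZ' hlim' hc'
  exact ⟨c, C, hc0, h1.and h2⟩

/-- maps with self-dual laws -/
theorem self_dual (N : ℕ → ℕ) (a : ℕ → ℝ≥0) (ha : Tendsto a atTop (𝓝 0))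
    {Ωs : ℕ → Type} [∀ k, MeasurableSpace (Ωs k)] (Ps : ∀ k, Measure (Ωs k))
    [∀ k, IsProbabilityMeasure (Ps k)] (Q : ∀ k, Ωs k → Quad (N k))
    (δ : ∀ k, Ωs k → ℕ → Fin (4 * N k)) (hW : ∀ k, IsMapWalk (Ps k) (Q k) (δ k))
    (hdual : ∀ k, IsDual (Ps k) (Q k) (δ k) (Ps k) (Q k) (δ k))
    (t : ℕ → ℝ≥0) (hconv : ConvergesToBM a t Ps Q δ hW) :
    ∃ c C : ℝ, 0 < c ∧ ∀ᶠ k in atTop, c * N k ≤ t k ∧ t k ≤ C * N k := by
  obtain ⟨c, C, hc, h⟩ := general N a ha Ps Q δ hW Ps Q δ hW hdual t t hconv hconv
  have key : ∀ {x y : ℝ}, x ^ 2 ≤ y ^ 2 → 0 ≤ y → x ≤ y := by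
    intro x y h hy
    by_contra hne
    push Not at hne
    nlinarith
  refine ⟨Real.sqrt c, Real.sqrt (max C 0), Real.sqrt_pos.2 hc, ?_⟩
  filter_upwards [h] with k hk
  obtain ⟨h1, h2⟩ := hk
  have hN : (0 : ℝ) ≤ N k := Nat.cast_nonneg _
  have ht : (0 : ℝ) ≤ t k := (t k).2
  constructor
  · apply key _ ht
    rw [mul_pow, Real.sq_sqrt hc.le, sq (t k : ℝ)]
    exact h1
  · apply key _ (mul_nonneg (Real.sqrt_nonneg _) hN)
    rw [mul_pow, Real.sq_sqrt (le_max_right _ _), sq (t k : ℝ)]
    refine h2.trans (mul_le_mul_of_nonneg_right (le_max_left _ _) (by positivity))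

/-- **The time scale of random walk on uniform planar maps is linear.** The first part is the case
of uniform rooted planar maps `M k` with `N k` edges: if stationary simple random walk on `M k` at
speed `t k` converges in law in the GHPU topology to a time-changed Brownian motion on a random
sphere, then `c * N k ≤ t k ≤ C * N k` for large `k`.

The second part is the general case: let `δ k` be stationary simple random walk on a random planar
map `M k` with `N k` edges, and let `δ' k` be stationary simple random walk on the dual of `M k`. If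
both walks converge, when they are run at speeds `t k` and `t' k`, then
`c * N k ^ 2 ≤ t k * t' k ≤ C * N k ^ 2` for large `k`. -/
theorem result :
    -- uniform planar maps
    (∀ (N : ℕ → ℕ) (a : ℕ → ℝ≥0), Tendsto a atTop (𝓝 0) →
      ∀ {Ωs : ℕ → Type} [∀ k, MeasurableSpace (Ωs k)] (Ps : ∀ k, Measure (Ωs k))
      [∀ k, IsProbabilityMeasure (Ps k)] (Q : ∀ k, Ωs k → Quad (N k))
      (δ : ∀ k, Ωs k → ℕ → Fin (4 * N k)) (hW : ∀ k, IsMapWalk (Ps k) (Q k) (δ k)),
      (∀ k, Uniform (Ps k) (Q k) (δ k)) → ∀ t : ℕ → ℝ≥0, ConvergesToBM a t Ps Q δ hW →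
      ∃ c C : ℝ, 0 < c ∧ ∀ᶠ k in atTop, c * N k ≤ t k ∧ t k ≤ C * N k) ∧
    -- the walk on a random map, and the walk on its dual
    (∀ (N : ℕ → ℕ) (a : ℕ → ℝ≥0), Tendsto a atTop (𝓝 0) →
      ∀ {Ωs : ℕ → Type} [∀ k, MeasurableSpace (Ωs k)] (Ps : ∀ k, Measure (Ωs k))
      [∀ k, IsProbabilityMeasure (Ps k)] (Q : ∀ k, Ωs k → Quad (N k))
      (δ : ∀ k, Ωs k → ℕ → Fin (4 * N k)) (hW : ∀ k, IsMapWalk (Ps k) (Q k) (δ k))
      {Ωs' : ℕ → Type} [∀ k, MeasurableSpace (Ωs' k)] (Ps' : ∀ k, Measure (Ωs' k))
      [∀ k, IsProbabilityMeasure (Ps' k)] (Q' : ∀ k, Ωs' k → Quad (N k))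
      (δ' : ∀ k, Ωs' k → ℕ → Fin (4 * N k)) (hW' : ∀ k, IsMapWalk (Ps' k) (Q' k) (δ' k)),
      (∀ k, IsDual (Ps k) (Q k) (δ k) (Ps' k) (Q' k) (δ' k)) → ∀ t t' : ℕ → ℝ≥0,
      ConvergesToBM a t Ps Q δ hW → ConvergesToBM a t' Ps' Q' δ' hW' →
      ∃ c C : ℝ, 0 < c ∧ ∀ᶠ k in atTop,
        c * (N k : ℝ) ^ 2 ≤ t k * t' k ∧ t k * t' k ≤ C * (N k : ℝ) ^ 2) := by
  refine ⟨?_, ?_⟩
  · intro N a ha Ωs _ Ps _ Q δ hW hU t hconv
    exact self_dual N a ha Ps Q δ hW (fun k q d => hU k _ _ _ _) t hconv
  · intro N a ha Ωs _ Ps _ Q δ hW Ωs' _ Ps' _ Q' δ' hW' hd t t' hc hc'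
    exact general N a ha Ps Q δ hW Ps' Q' δ' hW' hd t t' hc hc'

end Pool.Agent.Results.MP_7a6434d8_pr.ExactTimeScale
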