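import Pool.Agent.H29.XQ.Plain

import Pool.Graph.R_pool_sql_team_seeded_620a6dc7.Helper363_LBM.BMLoop

/-!
# The time scale of random walk on uniform quadrangulations is linear

Two results on simple random walk on a uniform rooted quadrangulation with `N` faces, whose degrees
are not bounded.

* Without any hypothesis: for two independent uniform marks, the probability that within `I` steps
  the walk goes from one ball to the other, and in a time interval separates the two balls by the
  vertices which it visits, is at most `C * (I + 1) / N`, with an absolute constant `C`. So these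
  two things take of order `N` steps, for balls of any radius.
* If the walk, run at speed `t k`, converges in law to a time-changed Brownian motion on a random
  sphere, then `c * N k ≤ t k ≤ C * N k` for large `k`.

The proof: let `φ` be the potential between the two balls in the dual network, whose faces have
degree four, with energy `ω ^ 2` on the edges. Opening a face at a vertex of degree `d` (this can
be done in of order `d ^ 2` ways, twice) changes `ω` near this vertex by a controlled amount
(`XQ/Pot`, `H53`), so the comparison of the numbers of quadrangulations with `N` and with `N + 2`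
faces shows that the mean of `∑ deg ^ 2 * ω ^ 2` over all quadrangulations and all marks is bounded
(`H55`). This sum bounds the conductance of the quadrangulation (`H25`), hence the probability of a
crossing, and also the probability that the martingale `∑ ω (e i)` is large (`H51`, `H75`). If the
path separates the balls then this martingale, or `ω` at a visited vertex, is large, by planarity
(`H95`, `H51`).
-/

set_option autoImplicit false

open scoped NNReal ENNReal Topology
open MeasureTheory ProbabilityTheory Filter Set

open Pool.Agent.Helper363_LBM Pool.Agent.H29.QD Pool.Agent.H29.XQ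

/-- **Random walk on uniform quadrangulations: the time scale is linear.**

The first part is unconditional: let `Q` be a uniform rooted quadrangulation of the sphere with
`N ≥ 3` faces, let `e` be simple random walk which starts with the root, and let `x0`, `x1` be
independent uniform darts. Then the probability that the distance of `x0` and `x1` is larger than
`2 * R + 2`, that the walk visits the ball of radius `R` around `x0` and then the ball of radius `R`
around `x1` before time `I`, and that in some time interval before time `I` it avoids both balls and
the vertices which it visits separate them, is at most `C * (I + 1) / N`.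

The second part: let `Q k` be a uniform quadrangulation of the sphere with `N k → ∞` faces, with
simple random walk `e k` which starts with a uniform dart. Suppose that, with edges of length
`a k → 0`, mass `b k` at every vertex and the walk run at speed `t k`, they converge in law in the
GHPU topology to a random sphere with a time-changed Brownian motion. Then there are constants
`c > 0` and `C` with `c * N k ≤ t k ≤ C * N k` for all large `k`. -/
theorem Pool.Agent.Results.MP_7a6434d8_pr.LinearTimeScale.result :
    (∃ C : ℝ, ∀ {Ω : Type} [MeasurableSpace Ω] (P : Measure Ω) [IsProbabilityMeasure P] (N : ℕ)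
      (Q : Ω → Quad N) (e : Ω → ℕ → Fin (4 * N)), 3 ≤ N → IsSRW P Q e → UniformRooted P Q e →
      ∀ R I : ℕ, (∑ x0 : Fin (4 * N), ∑ x1 : Fin (4 * N), P.real {ω |
        2 * R + 2 < (Q ω).graph.dist ((Q ω).tail x0) ((Q ω).tail x1) ∧
        Crosses (Q ω) (e ω) I (ball (Q ω) x0 R) (ball (Q ω) x1 R) ∧
        Separates (Q ω) (e ω) I (ball (Q ω) x0 R) (ball (Q ω) x1 R)}) / (4 * N) ^ 2 ≤
        C * (I + 1) / N) ∧
    (∀ {Ωs : ℕ → Type} [∀ k, MeasurableSpace (Ωs k)] (Ps : ∀ k, Measure (Ωs k))
      [∀ k, IsProbabilityMeasure (Ps k)] (N : ℕ → ℕ), Tendsto N atTop atTop →
      ∀ (Q : ∀ k, Ωs k → Quad (N k)) (e : ∀ k, Ωs k → ℕ → Fin (4 * N k))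
      (hS : ∀ k, IsSRW (Ps k) (Q k) (e k)), (∀ k, UniformRooted (Ps k) (Q k) (e k)) →
      ∀ (a b t : ℕ → ℝ≥0), Tendsto a atTop (𝓝 0) →
      ∀ {Ω : Type} [MeasurableSpace Ω] (P : Measure Ω) [IsProbabilityMeasure P] (Z : Ω → MMC),
      @Measurable Ω MMC _ (borel MMC) Z → IsBrownianSphere P Z →
      ConvergesInLaw Ps
        (fun k ω => walkSpace (Q k ω) (a k) (b k) (t k) (e k ω) ((hS k).path ω)) P Z →
      ∃ c C : ℝ, 0 < c ∧ ∀ᶠ k in atTop, c * N k ≤ t k ∧ t k ≤ C * N k) := by
  constructor
  · refine ⟨10 ^ 14 / 4, fun {Ω} _ P _ N Q e hN hS hU R I => ?_⟩
    refine (cross_sep hS hU hN R I).trans (le_of_eq ?_)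
    have hN' : (N : ℝ) ≠ 0 := by
      have : N ≠ 0 := by omega
      exact_mod_cast this
    field_simp
  · intro Ωs _ Ps _ N hN Q e hS hU a b t ha Ω _ P _ Z hZ hlim hconv
    obtain ⟨c, hc, h1⟩ := lower_unif hN hS hU ha hZ hlim hconv
    obtain ⟨k0, hk0⟩ := hlim.good
    obtain ⟨C, h2⟩ := bound_of_good hS ha hZ hconv hk0
    refine ⟨c, C, hc, ?_⟩
    filter_upwards [h1] with k hk
    exact ⟨hk, h2 k⟩
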