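import Pool.Agent.H29.SD.Rot

/-!
# Random walk on uniform planar maps with a boundary: exact self-duality

Let `q` be a uniform rooted quadrangulation with `n` inner faces and with a (not necessarily
simple) boundary of length `4 k`, `k` odd, divided into four sides of length `k`. Its vertices of
the colour of the root vertex, joined by the diagonals of the inner faces, form a uniform planar
map with `n` edges (and with a boundary). Consider simple random walk on this map. In the
stationary regime it passes from the first side to the third side with frequency
`q.X / (2 n)` per step. We show, for all `n` and `k`, that the random variable `q.X` has the same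
law as its inverse; in particular, its median is one. So the time scale of the walk is `n`.

* `Net`: hitting probabilities, energies, the Dirichlet principle;
* `BMap`: quadrangulations with a boundary are bipartite, and their homology modulo two vanishes;
* `Topo`: black and white crossings intersect;
* `Area`: the product of the energies of a black crossing function and of a white one is at
  least one;
* `Dual`, `Dual2`: the crossing rate of the white vertices, between the second and the fourth
  side, is the inverse of the crossing rate of the black vertices;
* `Rot`: moving the root by one side exchanges the two.
-/

set_option autoImplicit false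

open scoped ENNReal

open Pool.Agent.H29.SD

/-- Let `A` be a class of rooted quadrangulations with `n` inner faces and a boundary of length
`4 k`, `k` odd, which is invariant when the root is moved by one side of length `k` along the
boundary, for example the class of all of them or the class of those with a simple boundary. For
uniform `q` in `A`, the crossing rate `q.X` of simple random walk on the black map has the same
law as `(q.X)⁻¹`, and so it is at least one, and at most one, with probability at least
one half. -/
theorem Pool.Agent.Results.MP_7a6434d8_pr.SelfDualCrossing.result {n k : ℕ} (hk : Odd k)
    (A : Set (BQuad n k)) (hA : ∀ q ∈ A, q.rot ∈ A) :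
    (∀ q : BQuad n k, q.rot.X = (q.X)⁻¹) ∧
    (∀ s : ℝ≥0∞, Nat.card {q : BQuad n k // q ∈ A ∧ s ≤ q.X} =
      Nat.card {q : BQuad n k // q ∈ A ∧ q.X ≤ s⁻¹}) ∧
    Nat.card A ≤ 2 * Nat.card {q : BQuad n k // q ∈ A ∧ 1 ≤ q.X} ∧
    Nat.card A ≤ 2 * Nat.card {q : BQuad n k // q ∈ A ∧ q.X ≤ 1} :=
  ⟨fun q => q.X_rot hk, fun s => BQuad.card_X hk A hA s, BQuad.median hk A hA⟩
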